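import Pool.Agent.helper82.LEQ.Spec

set_option autoImplicit false

namespace LEQ

open scoped BigOperators
open QS (Lef EAb)

theorem MU (h1 : MB_stmt) : MU_stmt := by
  intro G _ _ g X f hX hcl hf E hE
  classical
  -- strong induction on the cardinality
  have key : ∀ n : ℕ, ∀ E : Subgroup G, Nat.card E = n → X E → f E = Mb g E := by
    intro n
    induction n using Nat.strong_induction_on with
    | _ n ih =>
      intro E hn hE
      have hEs : Stb g E := hX E hE
      have hmem : E ∈ FS (fun F : Subgroup G => F ≤ E ∧ Stb g F) := mem_FS.2 ⟨le_refl E, hEs⟩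
      have hrest : ∑ F ∈ (FS (fun F : Subgroup G => F ≤ E ∧ Stb g F)).erase E, f F
          = ∑ F ∈ (FS (fun F : Subgroup G => F ≤ E ∧ Stb g F)).erase E, Mb g F := by
        apply Finset.sum_congr rfl
        intro F hF
        rw [Finset.mem_erase] at hF
        obtain ⟨hne, hF2⟩ := hF
        have hF3 := mem_FS.1 hF2
        have hlt : F < E := lt_of_le_of_ne hF3.1 hne
        have hcard : Nat.card F < n := by
          rw [← hn]
          exact Set.ncard_lt_ncard (SetLike.coe_ssubset_coe.2 hlt) (Set.toFinite _)
        exact ih (Nat.card F) hcard F rfl (hcl E F hE hF3.1 hF3.2)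
      have htot : ∑ F ∈ FS (fun F : Subgroup G => F ≤ E ∧ Stb g F), f F
          = ∑ F ∈ FS (fun F : Subgroup G => F ≤ E ∧ Stb g F), Mb g F := by
        by_cases hb : E = ⊥
        · rw [(hf E hE).1 hb, (h1 G g E hEs).1 hb]
        · rw [(hf E hE).2 hb, (h1 G g E hEs).2 hb]
      rw [← Finset.add_sum_erase _ _ hmem, ← Finset.add_sum_erase _ _ hmem, hrest] at htot
      exact add_right_cancel htot
  exact key (Nat.card E) E rfl hE

end LEQ
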